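import Pool.Agent.H705.SD.Res

set_option autoImplicit false

/-!
Reversible pebbling costs at most a polylogarithmic factor more than black pebbling.
-/

namespace Pool.Agent.Results.MP_ecb870_lc.ReversiblePebbling

open Finset

variable {n : ℕ}

/-- One move of the standard (black) pebble game: place a pebble on `v` if all in-neighbours of `v`
carry pebbles, slide a pebble from an in-neighbour of such a `v` onto `v`, or remove a pebble. -/
def BlackMove (pred : Fin n → Finset (Fin n)) (A B : Finset (Fin n)) : Prop :=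
  (∃ v, pred v ⊆ A ∧ B = insert v A) ∨
    (∃ v, pred v ⊆ A ∧ ∃ u ∈ pred v, B = insert v (A.erase u)) ∨ (∃ u, B = A.erase u)

/-- The node `z` can be pebbled with at most `s` pebbles, starting from no pebbles. -/
def Peb (pred : Fin n → Finset (Fin n)) (z : Fin n) (s : ℕ) : Prop :=
  ∃ (τ : ℕ) (cfg : ℕ → Finset (Fin n)), cfg 0 = ∅ ∧ z ∈ cfg τ ∧
    (∀ t, t < τ → BlackMove pred (cfg t) (cfg (t + 1))) ∧ ∀ t, t ≤ τ → (cfg t).card ≤ s

/-- One move of the reversible pebble game: a pebble is placed on `v` or removed from `v` while all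
in-neighbours of `v` carry pebbles. -/
def RevMove (pred : Fin n → Finset (Fin n)) (A B : Finset (Fin n)) : Prop :=
  (∃ v, v ∉ A ∧ pred v ⊆ A ∧ B = insert v A) ∨ (∃ v, v ∉ B ∧ pred v ⊆ B ∧ A = insert v B)

/-- There is a reversible pebbling with at most `r` pebbles that starts with no pebbles and ends
with a pebble on `z` only. -/
def RevPeb (pred : Fin n → Finset (Fin n)) (z : Fin n) (r : ℕ) : Prop :=
  ∃ (τ : ℕ) (cfg : ℕ → Finset (Fin n)), cfg 0 = ∅ ∧ cfg τ = {z} ∧
    (∀ t, t < τ → RevMove pred (cfg t) (cfg (t + 1))) ∧ ∀ t, t ≤ τ → (cfg t).card ≤ r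

lemma RevMove.symm {pred : Fin n → Finset (Fin n)} {A B : Finset (Fin n)}
    (h : RevMove pred A B) : RevMove pred B A := by
  rcases h with h | h
  · exact Or.inr h
  · exact Or.inl h

/-- reversible moves with at most `r` pebbles -/
def RStep (pred : Fin n → Finset (Fin n)) (r : ℕ) (A B : Finset (Fin n)) : Prop :=
  RevMove pred A B ∧ A.card ≤ r ∧ B.card ≤ r

/-- connected by reversible moves -/
def Conn (pred : Fin n → Finset (Fin n)) (r : ℕ) (A B : Finset (Fin n)) : Prop :=
  Relation.ReflTransGen (RStep pred r) A B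

lemma Conn.mono {pred : Fin n → Finset (Fin n)} {r r' : ℕ} (hr : r ≤ r') {A B : Finset (Fin n)}
    (h : Conn pred r A B) : Conn pred r' A B := by
  induction h with
  | refl => exact Relation.ReflTransGen.refl
  | tail _ h2 ih => exact Relation.ReflTransGen.tail ih ⟨h2.1, h2.2.1.trans hr, h2.2.2.trans hr⟩

lemma Conn.symm {pred : Fin n → Finset (Fin n)} {r : ℕ} {A B : Finset (Fin n)}
    (h : Conn pred r A B) : Conn pred r B A := by
  induction h with
  | refl => exact Relation.ReflTransGen.refl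
  | tail _ h2 ih => exact Relation.ReflTransGen.head ⟨h2.1.symm, h2.2.2, h2.2.1⟩ ih

lemma Conn.ins {pred : Fin n → Finset (Fin n)} {r : ℕ} {A B : Finset (Fin n)} (f : Fin n)
    (h : Conn pred r A B) : Conn pred (r + 1) (insert f A) (insert f B) := by
  induction h with
  | refl => exact Relation.ReflTransGen.refl
  | @tail B C _ h2 ih =>
    obtain ⟨hm, hB, hC⟩ := h2
    have cB : (insert f B).card ≤ r + 1 := (card_insert_le _ _).trans (by omega)
    have cC : (insert f C).card ≤ r + 1 := (card_insert_le _ _).trans (by omega)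
    rcases hm with ⟨v, h1, h3, rfl⟩ | ⟨v, h1, h3, rfl⟩
    · by_cases hv : v = f
      · subst hv
        simpa using ih
      · refine Relation.ReflTransGen.tail ih ⟨Or.inl ⟨v, ?_, ?_, ?_⟩, cB, cC⟩
        · simp [hv, h1]
        · exact h3.trans (subset_insert _ _)
        · exact Finset.insert_comm _ _ _
    · by_cases hv : v = f
      · subst hv
        simpa using ih
      · refine Relation.ReflTransGen.tail ih ⟨Or.inr ⟨v, ?_, ?_, ?_⟩, cB, cC⟩
        · simp [hv, h1]
        · exact h3.trans (subset_insert _ _)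
        · exact Finset.insert_comm _ _ _

/-- a search strategy gives a reversible pebbling -/
theorem conn_of_win {pred : Fin n → Finset (Fin n)} {M : ℕ → Finset (Fin n)} {τ : ℕ}
    (hstep : ∀ t, t < τ → BlackMove pred (M t) (M (t + 1))) {k : ℕ} {T F : Finset (Fin n)}
    (h : Pool.Agent.H705.SD.Win M τ (fun _ => 1) k T F) : Disjoint T F →
    ∃ f ∈ F, Conn pred (T.card + k + 1) T (insert f T) := by
  induction h with
  | @leaf k T F t ht h1 D h2 h3 =>
    intro hTF
    have hDT : D ∉ T := fun h => (disjoint_left.1 hTF h) h3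
    have hDM : D ∉ M t := fun h => hDT (h1 h)
    have hpred : pred D ⊆ M t := by
      rcases hstep t ht with ⟨v, hv, hM⟩ | ⟨v, hv, u, hu, hM⟩ | ⟨u, hM⟩
      · rw [hM] at h2
        rcases mem_insert.1 h2 with rfl | h4
        · exact hv
        · exact absurd h4 hDM
      · rw [hM] at h2
        rcases mem_insert.1 h2 with rfl | h4
        · exact hv
        · exact absurd (mem_of_mem_erase h4) hDM
      · rw [hM] at h2
        exact absurd (mem_of_mem_erase h2) hDM
    refine ⟨D, h3, Relation.ReflTransGen.single ⟨Or.inl ⟨D, hDT, hpred.trans h1, rfl⟩, by omega, ?_⟩⟩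
    exact (card_insert_le _ _).trans (by omega)
  | @query k T F D h1 h2 ih1 ih2 =>
    intro hTF
    by_cases hDT : D ∈ T
    · rw [insert_eq_of_mem hDT] at ih1
      obtain ⟨f, hf, hc⟩ := ih1 hTF
      exact ⟨f, hf, hc.mono (by omega)⟩
    by_cases hDF : D ∈ F
    · rw [insert_eq_of_mem hDF] at ih2
      obtain ⟨f, hf, hc⟩ := ih2 hTF
      exact ⟨f, hf, hc.mono (by omega)⟩
    obtain ⟨f, hf, hc⟩ := ih2 (by rw [disjoint_insert_right]; exact ⟨hDT, hTF⟩)
    rcases mem_insert.1 hf with rfl | hf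
    swap
    · exact ⟨f, hf, hc.mono (by omega)⟩
    obtain ⟨f', hf', hc'⟩ := ih1 (by rw [disjoint_insert_left]; exact ⟨hDF, hTF⟩)
    have hcard : (insert f T).card = T.card + 1 := card_insert_of_notMem hDT
    rw [hcard] at hc'
    refine ⟨f', hf', ?_⟩
    have e1 : Conn pred (T.card + (k + 1) + 1) T (insert f T) := hc.mono (by omega)
    have e2 : Conn pred (T.card + (k + 1) + 1) (insert f T) (insert f' (insert f T)) :=
      hc'.mono (by omega)
    have e3 : Conn pred (T.card + (k + 1) + 1) (insert f' (insert f T)) (insert f' T) :=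
      (Conn.ins f' hc.symm).mono (by omega)
    exact (e1.trans e2).trans e3

lemma seq_of_conn {pred : Fin n → Finset (Fin n)} {r : ℕ} {A B : Finset (Fin n)} (hA : A.card ≤ r)
    (h : Conn pred r A B) : ∃ (τ : ℕ) (cfg : ℕ → Finset (Fin n)), cfg 0 = A ∧ cfg τ = B ∧
    (∀ t, t < τ → RevMove pred (cfg t) (cfg (t + 1))) ∧ ∀ t, t ≤ τ → (cfg t).card ≤ r := by
  induction h with
  | refl => exact ⟨0, fun _ => A, rfl, rfl, by simp, fun _ _ => hA⟩
  | @tail B C _ h2 ih =>
    obtain ⟨τ, cfg, h0, h1, h3, h4⟩ := ih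
    refine ⟨τ + 1, fun t => if t ≤ τ then cfg t else C, by simp [h0], by simp, ?_, ?_⟩
    · intro t ht
      dsimp only
      rw [if_pos (by omega)]
      rcases Nat.lt_or_ge t τ with h | h
      · rw [if_pos (by omega)]
        exact h3 t h
      · obtain rfl : t = τ := by omega
        rw [if_neg (by omega), h1]
        exact h2.1
    · intro t ht
      dsimp only
      split_ifs with h
      · exact h4 t h
      · exact h2.2.2

lemma arith {s l u : ℝ} (hs : 1 ≤ s) (hu : 0 ≤ u) (hl : Real.log 2 ≤ l) :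
    20 * (u + 1) ^ 2 * 1 * ((s * l + 1) / Real.log 2) + 2 * s * (2 * u + 1) ≤
      51 * ((u + 1) ^ 2 * s) * (l / Real.log 2) := by
  have h1 : (0.6931 : ℝ) < Real.log 2 := by
    have := Real.log_two_gt_d9
    linarith
  have hl2 : 0 < Real.log 2 := by linarith
  set y := l / Real.log 2 with hy
  have hy1 : 1 ≤ y := by rw [hy, le_div_iff₀ hl2]; linarith
  have e1 : (s * l + 1) / Real.log 2 = s * y + 1 / Real.log 2 := by
    rw [hy]; field_simp
  have h3 : 1 / Real.log 2 ≤ 1.45 := by
    rw [div_le_iff₀ hl2]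
    nlinarith
  have hsy : 1 ≤ s * y := by nlinarith
  have h4 : (s * l + 1) / Real.log 2 ≤ 2.45 * (s * y) := by
    rw [e1]; linarith
  have h5 : 20 * (u + 1) ^ 2 * 1 * ((s * l + 1) / Real.log 2) ≤
      20 * (u + 1) ^ 2 * 1 * (2.45 * (s * y)) := by
    apply mul_le_mul_of_nonneg_left h4
    positivity
  have h6 : 2 * s * (2 * u + 1) ≤ 2 * s * ((u + 1) ^ 2) := by
    apply mul_le_mul_of_nonneg_left _ (by linarith)
    nlinarith [sq_nonneg u]
  have h7 : 2 * s * (u + 1) ^ 2 ≤ 2 * s * (u + 1) ^ 2 * y := by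
    have : 0 ≤ 2 * s * (u + 1) ^ 2 := by positivity
    nlinarith
  have e2 : 20 * (u + 1) ^ 2 * 1 * (2.45 * (s * y)) = 49 * ((u + 1) ^ 2 * s * y) := by ring
  have e3 : 2 * s * (u + 1) ^ 2 * y = 2 * ((u + 1) ^ 2 * s * y) := by ring
  have e4 : 51 * ((u + 1) ^ 2 * s) * y = 51 * ((u + 1) ^ 2 * s * y) := by ring
  rw [e4]
  linarith

/-- **Reversible pebbling.**  If the node `z` of a digraph with `n ≥ 2` nodes can be pebbled with `s`
pebbles in the black pebble game (with sliding), then there is a reversible pebbling that ends with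
a pebble on `z` only and uses at most `51 (⌊log₂ s⌋ + 1)² s log₂ n + 1` pebbles. -/
theorem result (n : ℕ) (hn : 2 ≤ n) (pred : Fin n → Finset (Fin n)) (z : Fin n) (s : ℕ)
    (h : Peb pred z s) : ∃ r : ℕ,
      (r : ℝ) ≤ 51 * (((Nat.log 2 s : ℝ) + 1) ^ 2 * s) * Real.logb 2 n + 1 ∧ RevPeb pred z r := by
  classical
  obtain ⟨τ, cfg, h0, hz, h1, h2⟩ := h
  have hs0 : 1 ≤ s := Nat.succ_le_of_lt ((card_pos.2 ⟨z, hz⟩).trans_le (h2 τ le_rfl))
  have hnR : (2 : ℝ) ≤ n := by exact_mod_cast hn
  have hsR : (1 : ℝ) ≤ s := by exact_mod_cast hs0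
  have hlog : Real.log 2 ≤ Real.log n := Real.log_le_log (by norm_num) hnR
  have hl2 : 0 < Real.log 2 := Real.log_pos (by norm_num)
  have hlogn : 0 ≤ Real.log n := hl2.le.trans hlog
  have hτ' : 0 < τ := by
    rcases Nat.eq_zero_or_pos τ with h | h
    · rw [h, h0] at hz
      simp at hz
    · exact h
  obtain ⟨m, hm, hmN⟩ := Pool.Agent.H705.SD.params (s := s) (w := 1) le_rfl hs0
    (X := s * Real.log n + 1) (by positivity)
  set N := m * (2 * s + 2 * 1 * Nat.log 2 (s / 1) * 2 ^ (Nat.log 2 (s / 1) + 1)) with hN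
  rw [Nat.div_one] at hmN hm
  have h3 : (N : ℝ) ≤ 51 * (((Nat.log 2 s : ℝ) + 1) ^ 2 * s) * Real.logb 2 n := by
    have h5 := arith hsR (Nat.cast_nonneg (Nat.log 2 s)) hlog
    rw [Real.logb]
    refine le_trans ?_ h5
    simpa [hN] using hmN
  have hwin : Pool.Agent.H705.SD.Win cfg τ (fun _ => 1) N ∅ {z} := by
    refine Pool.Agent.H705.SD.nest_win (s := s) (W := 1) (J := (Nat.log 2 s : ℝ) + 2)
      (by push_cast; rw [Nat.div_one]; linarith) ?_ ?_ (fun _ => Real.log n)
      (H := s * Real.log n) (Z := 1) ?_ ?_ (by rw [Nat.div_one]; exact hm) (by simp) hτ' ?_ ?_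
    · intro t ht
      simpa using h2 t ht
    · intro t ht D hD
      exact le_rfl
    · intro U
      rw [Finset.sum_const, nsmul_eq_mul, Real.exp_neg, Real.exp_log (by linarith)]
      rw [← div_eq_mul_inv, div_le_one (by linarith)]
      have := Finset.card_le_univ U
      rw [Fintype.card_fin] at this
      exact_mod_cast this
    · intro t ht
      rw [Finset.sum_const, nsmul_eq_mul]
      apply mul_le_mul_of_nonneg_right _ hlogn
      exact_mod_cast h2 t ht
    · rw [h0]
    · exact ⟨z, hz, by simp⟩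
  obtain ⟨f, hf, hc⟩ := conn_of_win h1 hwin (by simp)
  rw [mem_singleton] at hf
  subst hf
  refine ⟨N + 1, ?_, ?_⟩
  · push_cast
    linarith
  · obtain ⟨τ', cfg', g0, g1, g2, g3⟩ := seq_of_conn (r := N + 1) (by simp) (hc.mono (by simp))
    exact ⟨τ', cfg', g0, by simpa using g1, g2, g3⟩

end Pool.Agent.Results.MP_ecb870_lc.ReversiblePebbling
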